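import Pool.Agent.Run7.h184.AN.Ah2
import Pool.Agent.N586.RT.Cl

/-!
# The central limit theorem for the digits of algebraic numbers
-/

set_option autoImplicit false

namespace Pool.Agent.Run7.h184.AN

open Finset Real Filter Polynomial MeasureTheory Topology ProbabilityTheory
open Pool.Agent.Y933.KG (pol Om Alg Alg_finite)
open Pool.Agent.Y933.KD
open Pool.Agent.N586.RT (logpow log_ge events_test clt_lim)
open Pool.Agent.N586.AN

/-- the finite set of the real algebraic numbers of degree `q + 2` and height at most `H` -/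
noncomputable def Fs (q H : ℕ) : Finset ℝ := (Alg_finite q H).toFinset

lemma mem_Fs (q H : ℕ) (x : ℝ) : x ∈ Fs q H ↔ x ∈ Alg (q + 2) H := by
  unfold Fs
  rw [Set.Finite.mem_toFinset]

lemma card_Fs (q H : ℕ) : (Fs q H).card = (Alg (q + 2) H).ncard := by
  rw [← Set.ncard_coe_finset]
  congr 1
  ext x
  rw [Finset.mem_coe, mem_Fs]

/-- the number `b ^ s f(x) / m` -/
noncomputable def vl (b s : ℕ) (f : ℤ[X]) (m : ℕ) (x : ℝ) : ℝ := (b : ℝ) ^ s * (aeval x f / m)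

/-- the uniform measures, with a convention for small `H` -/
noncomputable def Pm (q b : ℕ) (f : ℕ → ℤ[X]) (m s : ℕ → ℕ) (H : ℕ) : Measure ℝ :=
  if (Fs q H).Nonempty then unif (Fs q H) (vl b (s H) (f H) (m H)) else Leb

instance (q b : ℕ) (f : ℕ → ℤ[X]) (m s : ℕ → ℕ) (H : ℕ) :
    IsProbabilityMeasure (Pm q b f m s H) := by
  unfold Pm
  split_ifs with h
  · exact unif_prob h _
  · infer_instance

lemma nonempty_ev (hA : S_ALG) (q : ℕ) : ∀ᶠ H : ℕ in atTop, (Fs q H).Nonempty := by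
  obtain ⟨C, hC, H1, hH1⟩ := hA q
  filter_upwards [eventually_ge_atTop H1, eventually_ge_atTop 1] with H h1 h2
  rw [← Finset.card_pos]
  by_contra hcon
  have h3 := hH1 H h1
  rw [← card_Fs, Nat.eq_zero_of_not_pos hcon, Nat.cast_zero, mul_zero] at h3
  have : (0 : ℝ) < (H : ℝ) ^ (q + 3) := by
    have : (0 : ℝ) < H := by exact_mod_cast h2
    positivity
  linarith

/-- the Fourier coefficients -/
lemma hat_bound (hAH : S_AH2) (hA : S_ALG) (q : ℕ) (δ β β₁ c₀ : ℝ) (hδ : 0 < δ) (hβ : 0 < β)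
    (hββ : β < β₁) (h1 : 2 * δ + β₁ < 1) (hc₀ : 0 < c₀) (b : ℕ) (hb : 2 ≤ b) (k : ℕ)
    (f : ℕ → ℤ[X]) (m s N : ℕ → ℕ) (hok : ∀ᶠ H : ℕ in atTop, Sml q β H (f H) (m H))
    (hs : ∀ᶠ H : ℕ in atTop, c₀ * log H ≤ s H)
    (hsN : ∀ᶠ H : ℕ in atTop, (s H : ℝ) + N H ≤ (log H) ^ (1 + δ)) :
    ∀ᶠ H : ℕ in atTop, ∀ (n : Fin k → ℕ) (h : Fin k → ℤ), (∀ i, n i ≤ N H) →
      (∀ i, |(h i : ℝ)| ≤ Real.exp ((log H) ^ β₁)) → ∑ i, h i * (b : ℤ) ^ n i ≠ 0 →
      ‖hat (Pm q b f m s H) (∑ i, h i * (b : ℤ) ^ n i)‖ ≤ Real.exp (-(log H) ^ β₁) := by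
  obtain ⟨ε, hε⟩ : ∃ ε : ℝ, ε = (1 - 2 * δ - β₁) / 4 := ⟨_, rfl⟩
  have hε0 : 0 < ε := by rw [hε]; linarith
  have hbR : (2 : ℝ) ≤ b := by exact_mod_cast hb
  have hlog2 : 0 < log (2 : ℝ) := Real.log_pos (by norm_num)
  have hlogb : 0 < log (b : ℝ) := Real.log_pos (by linarith)
  obtain ⟨H0, hH0⟩ := hAH q (δ + ε) β₁ (by linarith) (by linarith) (by linarith) (c₀ * log 2)
    (by positivity)
  filter_upwards [hok, hs, hsN, nonempty_ev hA q, eventually_ge_atTop H0, log_ge (max 1 k),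
    logpow (by linarith : β < β₁) 1, logpow (by linarith : (1 + δ : ℝ) < 1 + (δ + ε))
      (3 + log b)] with H g1 g2 g3 g4 g5 g6 g7 g8 n h hn hh hne
  have hL1 : 1 ≤ log (H : ℝ) := (le_max_left _ _).trans g6
  have hkL : (k : ℝ) ≤ log (H : ℝ) := (le_max_right _ _).trans g6
  obtain ⟨L, hL⟩ : ∃ L : ℝ, L = log H := ⟨_, rfl⟩
  rw [← hL] at g2 g3 g6 g7 g8 hh hL1 hkL ⊢
  rw [one_mul] at g7
  have hL0 : 0 < L := by linarith
  obtain ⟨hf1, hf2, hf3, hm1, hm2⟩ := g1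
  rw [← hL] at hf3 hm2
  have hmR : (1 : ℝ) ≤ m H := by exact_mod_cast hm1
  have hmp : (0 : ℝ) < m H := by linarith
  have hHp : (0 : ℝ) < H := by
    by_contra hcon
    have : (H : ℝ) = 0 := le_antisymm (not_lt.1 hcon) (Nat.cast_nonneg _)
    rw [hL, this, Real.log_zero] at hL1
    linarith
  have hexpL : Real.exp L = H := by rw [hL, Real.exp_log hHp]
  obtain ⟨l, hl⟩ : ∃ l : ℤ, l = ∑ i, h i * (b : ℤ) ^ n i := ⟨_, rfl⟩
  rw [← hl] at hne ⊢
  -- the polynomial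
  obtain ⟨G, hG⟩ : ∃ G : ℝ[X], G = C ((m H : ℝ)⁻¹) * (f H).map (Int.castRingHom ℝ) := ⟨_, rfl⟩
  have hmi : ((m H : ℝ))⁻¹ ≠ 0 := inv_ne_zero hmp.ne'
  have hdeg : G.natDegree = (f H).natDegree := by
    rw [hG, natDegree_C_mul hmi, natDegree_map_eq_of_injective (RingHom.injective_int _)]
  have hco : ∀ i, G.coeff i = (m H : ℝ)⁻¹ * ((f H).coeff i : ℝ) := by
    intro i
    rw [hG, coeff_C_mul, coeff_map, eq_intCast]
  have hev : ∀ x : ℝ, G.eval x = aeval x (f H) / m H := by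
    intro x
    rw [hG, eval_mul, eval_C, eval_map, aeval_def, div_eq_inv_mul]
    rfl
  have hbβ : Real.exp (L ^ β) ≤ Real.exp (L ^ β₁) := Real.exp_le_exp.2 g7
  have hG3 : ∀ i, 1 ≤ i → |G.coeff i| ≤ Real.exp (L ^ β₁) := by
    intro i _
    rw [hco, abs_mul, abs_of_pos (inv_pos.2 hmp)]
    calc (m H : ℝ)⁻¹ * |((f H).coeff i : ℝ)| ≤ 1 * |((f H).coeff i : ℝ)| := by
          gcongr
          exact inv_le_one_of_one_le₀ hmR
      _ ≤ _ := by rw [one_mul]; exact (hf3 i).trans hbβ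
  have hG4 : Real.exp (-L ^ β₁) ≤ |G.leadingCoeff| := by
    unfold Polynomial.leadingCoeff
    rw [hco, hdeg, abs_mul, abs_of_pos (inv_pos.2 hmp)]
    have h2 : (1 : ℝ) ≤ |((f H).coeff (f H).natDegree : ℝ)| := by
      have h3 : (f H).leadingCoeff ≠ 0 := by
        rw [Ne, leadingCoeff_eq_zero]
        rintro h4
        rw [h4, natDegree_zero] at hf1
        omega
      have h4 : 1 ≤ |(f H).leadingCoeff| := Int.one_le_abs h3
      have h5 : ((1 : ℤ) : ℝ) ≤ ((|(f H).leadingCoeff| : ℤ) : ℝ) := by exact_mod_cast h4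
      rw [Int.cast_abs, Int.cast_one] at h5
      exact h5
    calc Real.exp (-L ^ β₁) ≤ (m H : ℝ)⁻¹ := by
          rw [Real.exp_neg]
          exact inv_anti₀ hmp (hm2.trans hbβ)
      _ = (m H : ℝ)⁻¹ * 1 := by rw [mul_one]
      _ ≤ _ := by gcongr
  -- the frequency
  have hlabs : (1 : ℝ) ≤ |(l : ℝ)| := by
    have h4 : 1 ≤ |l| := Int.one_le_abs hne
    have h5 : ((1 : ℤ) : ℝ) ≤ ((|l| : ℤ) : ℝ) := by exact_mod_cast h4
    rw [Int.cast_abs, Int.cast_one] at h5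
    exact h5
  have hbs : (0 : ℝ) < (b : ℝ) ^ s H := by positivity
  have hθ : |(l : ℝ) * (b : ℝ) ^ s H| = |(l : ℝ)| * (b : ℝ) ^ s H := by
    rw [abs_mul, abs_of_pos hbs]
  have hθ1 : (H : ℝ) ^ (c₀ * log 2) ≤ |(l : ℝ) * (b : ℝ) ^ s H| := by
    rw [hθ]
    calc (H : ℝ) ^ (c₀ * log 2) = Real.exp (log 2 * (c₀ * L)) := by
          rw [← hexpL, ← Real.exp_mul]
          congr 1
          ring
      _ ≤ Real.exp (log b * s H) := by
          apply Real.exp_le_exp.2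
          have h2 : log (2 : ℝ) ≤ log b := Real.log_le_log (by norm_num) hbR
          have h3 : 0 ≤ c₀ * L := by positivity
          nlinarith
      _ = (b : ℝ) ^ s H := by
          rw [Real.exp_mul, Real.exp_log (by linarith), Real.rpow_natCast]
      _ = 1 * (b : ℝ) ^ s H := by rw [one_mul]
      _ ≤ _ := by gcongr
  have hLδ : L ≤ L ^ (1 + δ) := by
    calc L = L ^ (1 : ℝ) := by rw [Real.rpow_one]
      _ ≤ _ := Real.rpow_le_rpow_of_exponent_le hL1 (by linarith)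
  have hθ2 : |(l : ℝ) * (b : ℝ) ^ s H| ≤ Real.exp (L ^ (1 + (δ + ε))) := by
    rw [hθ]
    have h2 : |(l : ℝ)| ≤ k * (Real.exp (L ^ β₁) * (b : ℝ) ^ N H) := by
      rw [hl]
      push_cast
      refine (Finset.abs_sum_le_sum_abs _ _).trans ?_
      calc ∑ i, |(h i : ℝ) * (b : ℝ) ^ n i| ≤
            ∑ _i : Fin k, Real.exp (L ^ β₁) * (b : ℝ) ^ N H := by
            refine Finset.sum_le_sum fun i _ => ?_
            rw [abs_mul, abs_of_nonneg (by positivity : (0 : ℝ) ≤ (b : ℝ) ^ n i)]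
            exact mul_le_mul (hh i) (pow_le_pow_right₀ (by linarith) (hn i)) (by positivity)
              (Real.exp_pos _).le
        _ = _ := by rw [Finset.sum_const, Finset.card_univ, Fintype.card_fin, nsmul_eq_mul]
    have h3 : (b : ℝ) ^ N H * (b : ℝ) ^ s H ≤ Real.exp (log b * L ^ (1 + δ)) := by
      rw [← pow_add]
      calc (b : ℝ) ^ (N H + s H) = Real.exp (log b * ((N H + s H : ℕ) : ℝ)) := by
            rw [Real.exp_mul, Real.exp_log (by linarith), Real.rpow_natCast]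
        _ ≤ _ := by
            apply Real.exp_le_exp.2
            push_cast
            have : (N H : ℝ) + s H ≤ L ^ (1 + δ) := by linarith
            gcongr
    have h4 : (k : ℝ) ≤ Real.exp L := hkL.trans (by
      have := Real.add_one_le_exp L
      linarith)
    have h5 : L ^ β₁ ≤ L := by
      calc L ^ β₁ ≤ L ^ (1 : ℝ) := Real.rpow_le_rpow_of_exponent_le hL1 (by linarith)
        _ = L := Real.rpow_one _
    calc |(l : ℝ)| * (b : ℝ) ^ s H ≤ (k * (Real.exp (L ^ β₁) * (b : ℝ) ^ N H)) * (b : ℝ) ^ s H := by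
          gcongr
      _ = k * Real.exp (L ^ β₁) * ((b : ℝ) ^ N H * (b : ℝ) ^ s H) := by ring
      _ ≤ Real.exp L * Real.exp L * Real.exp (log b * L ^ (1 + δ)) := by gcongr
      _ = Real.exp (L + L + log b * L ^ (1 + δ)) := by rw [← Real.exp_add, ← Real.exp_add]
      _ ≤ Real.exp (L ^ (1 + (δ + ε))) := by
          apply Real.exp_le_exp.2
          refine le_trans ?_ g8
          nlinarith
  -- the sum
  have hP : Pm q b f m s H = unif (Fs q H) (vl b (s H) (f H) (m H)) := by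
    unfold Pm
    rw [if_pos g4]
  have hcp : (0 : ℝ) < (Fs q H).card := by exact_mod_cast Finset.card_pos.2 g4
  have key := hH0 H g5 G (by rw [hdeg]; exact hf1) (by rw [hdeg]; omega)
    (by rw [← hL]; exact hG3) (by rw [← hL]; exact hG4) ((l : ℝ) * (b : ℝ) ^ s H) hθ1
    (by rw [← hL]; exact hθ2) (Fs q H) (mem_Fs q H)
  rw [← hL] at key
  rw [hP]
  unfold hat
  rw [integral_unif, norm_mul]
  have e1 : ∀ x, e ((l : ℝ) * vl b (s H) (f H) (m H) x) = e ((l : ℝ) * (b : ℝ) ^ s H * G.eval x) := by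
    intro x
    rw [hev]
    unfold vl
    congr 1
    ring
  rw [Finset.sum_congr rfl fun x _ => e1 x]
  have e2 : ‖(1 / ((Fs q H).card : ℂ))‖ = 1 / ((Fs q H).card : ℝ) := by
    rw [norm_div, norm_one, Complex.norm_natCast]
  rw [e2]
  calc 1 / ((Fs q H).card : ℝ) * ‖∑ x ∈ Fs q H, e ((l : ℝ) * (b : ℝ) ^ s H * G.eval x)‖ ≤
        1 / ((Fs q H).card : ℝ) * ((Fs q H).card * Real.exp (-L ^ β₁)) := by gcongr
    _ = _ := by field_simp

/-- **the central limit theorem** -/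
theorem t_clt (hAH : S_AH2) (hA : S_ALG) : S_CLT := by
  classical
  intro q δ β c₀ hδ hβ hδβ hc₀ b w F hb hw hσ f m s N hok hN hs hsN a
  have hb1 : 1 ≤ b := by omega
  obtain ⟨β₁, hβ₁⟩ : ∃ β₁ : ℝ, β₁ = β + (1 - 2 * δ - β) / 2 := ⟨_, rfl⟩
  have hββ : β < β₁ := by rw [hβ₁]; linarith
  have h1 : 2 * δ + β₁ < 1 := by rw [hβ₁]; linarith
  have hβ₁0 : 0 < β₁ := by linarith
  have hlog : Tendsto (fun N : ℕ => log (N : ℝ)) atTop atTop :=
    Real.tendsto_log_atTop.comp tendsto_natCast_atTop_atTop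
  have hΔ : ∀ j : ℕ, ∀ᶠ H : ℕ in atTop,
      0 ≤ (3 ^ j + j * 29) * Real.exp (-((log H) ^ β₁ / (3 * j + 4))) ∧
      ∀ (n : Fin j → ℕ) (u v : Fin j → ℝ),
      (∀ i, n i ≤ 0 + N H) → (∀ i, 0 ≤ u i) → (∀ i, v i ≤ 1) →
      |(Pm q b f m s H).real (Ev (fun _ => b) n u v) - Leb.real (Ev (fun _ => b) n u v)| ≤
        (3 ^ j + j * 29) * Real.exp (-((log H) ^ β₁ / (3 * j + 4))) := by
    intro j
    filter_upwards [hat_bound hAH hA q δ β β₁ c₀ hδ hβ hββ h1 hc₀ b hb j f m s N hok hs hsN,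
      log_ge 1] with H g1 g2
    refine ⟨by positivity, fun n u v hn hu hv => ?_⟩
    have hτ : 0 ≤ (log (H : ℝ)) ^ β₁ := Real.rpow_nonneg (by linarith) _
    refine events_test hb1 hτ (Pm q b f m s H) n (fun h hh hne => ?_) u v hu hv
    exact g1 n h (fun i => by have := hn i; omega) hh hne
  have hΔl : ∀ j : ℕ, Tendsto (fun H : ℕ => (N H : ℝ) ^ j *
      ((3 ^ j + j * 29) * Real.exp (-((log H) ^ β₁ / (3 * j + 4))))) atTop (𝓝 0) := by
    intro j
    have hc : (0 : ℝ) < 1 / (3 * j + 4) := by positivity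
    have t1 := (tendsto_rpow_mul_exp_neg_mul_atTop_nhds_zero (β₁⁻¹ * ((1 + δ) * j))
      (1 / (3 * (j : ℝ) + 4)) hc)
    have t2 := (t1.comp ((tendsto_rpow_atTop hβ₁0).comp hlog)).const_mul ((3 : ℝ) ^ j + j * 29)
    rw [mul_zero] at t2
    refine squeeze_zero' (Eventually.of_forall fun M => by positivity) ?_ t2
    filter_upwards [hsN, log_ge 1] with H g2 g4
    have hL0 : 0 < log (H : ℝ) := by linarith
    simp only [Function.comp_apply]
    have e1 : ((log (H : ℝ)) ^ β₁) ^ (β₁⁻¹ * ((1 + δ) * j)) = ((log (H : ℝ)) ^ (1 + δ)) ^ j := by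
      rw [← Real.rpow_mul hL0.le, ← Real.rpow_natCast ((log (H : ℝ)) ^ (1 + δ)),
        ← Real.rpow_mul hL0.le]
      congr 1
      field_simp
    rw [e1]
    have e2 : -(1 / (3 * (j : ℝ) + 4)) * (log (H : ℝ)) ^ β₁ =
        -((log (H : ℝ)) ^ β₁ / (3 * j + 4)) := by ring
    rw [e2]
    have g3 : (N H : ℝ) ≤ (log (H : ℝ)) ^ (1 + δ) := by
      have : (0 : ℝ) ≤ s H := Nat.cast_nonneg _
      linarith
    calc (N H : ℝ) ^ j * ((3 ^ j + j * 29) * Real.exp (-((log H) ^ β₁ / (3 * j + 4)))) ≤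
        ((log (H : ℝ)) ^ (1 + δ)) ^ j * ((3 ^ j + j * 29) *
          Real.exp (-((log H) ^ β₁ / (3 * j + 4)))) := by gcongr
      _ = _ := by ring
  have key := clt_lim (b := b) (w := w) (G := cen b w F) hb1 hw (cen_le b w F) (cen_sum hb1 F)
    (by rw [sigma2_cen hb1]; exact hσ) (Pm q b f m s) (fun _ => 0) N hN
    (fun j H => (3 ^ j + j * 29) * Real.exp (-((log H) ^ β₁ / (3 * j + 4)))) hΔ hΔl a
  refine key.congr' ?_
  filter_upwards [nonempty_ev hA q] with H hH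
  have hmeas : MeasurableSet {z | WS b w (cen b w F) 0 (N H) z ≤
      a * √(sigma2 b w (cen b w F) * N H)} :=
    measurableSet_le (measurable_WS _ _ _ _ _) measurable_const
  have hP : Pm q b f m s H = unif (Fs q H) (vl b (s H) (f H) (m H)) := by
    unfold Pm
    rw [if_pos hH]
  have hwd : ∀ (i : ℕ) (x : ℝ), wd b w (0 + i) (vl b (s H) (f H) (m H) x) =
      wd b w (s H + i) (aeval x (f H) / (m H : ℝ)) := by
    intro i x
    unfold wd vl
    rw [zero_add, ← mul_assoc, ← pow_add, add_comm i]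
  rw [hP, real_unif _ _ hmeas, card_Fs]
  congr 2
  rw [← Set.ncard_coe_finset]
  congr 1
  ext x
  simp only [Set.mem_ofPred_eq, WS_cen hb1, sigma2_cen hb1, Finset.coe_filter, mem_Fs, hwd]

end Pool.Agent.Run7.h184.AN
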