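import Pool.Agent.N586.AN.Fin3
import Pool.Agent.Y933.KG.AlgHat

/-!
# The exponential sums over the algebraic numbers of given degree and height, for frequencies up to
`exp ((log H) ^ (1 + δ))`
-/

set_option autoImplicit false

namespace Pool.Agent.Run7.h184.AN

open Finset Real Filter Polynomial
open Pool.Agent.Y933.KG (pol Om Alg card_Om_le sum_sq alg_le)
open Pool.Agent.Y933.KD (e norm_e)
open Pool.Agent.N586.RT (logpow log_ge)
open Pool.Agent.N586.AN

/-- a power of the logarithm against a smaller one, with a factor `1 / 3` -/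
lemma logpow3 {a b : ℝ} (hab : a < b) (K : ℝ) :
    ∀ᶠ N : ℕ in atTop, K * (log N) ^ a ≤ (1 / 3 * log N) ^ b := by
  filter_upwards [logpow hab (K * 3 ^ b), log_ge 1] with N h1 h2
  have h3 : (0 : ℝ) < 3 ^ b := by positivity
  rw [Real.mul_rpow (by norm_num) (by linarith)]
  have h4 : ((1 : ℝ) / 3) ^ b = (3 ^ b)⁻¹ := by
    rw [one_div, Real.inv_rpow (by norm_num)]
  rw [h4]
  have h5 : K * (log N) ^ a = (3 ^ b)⁻¹ * (K * 3 ^ b * (log N) ^ a) := by
    field_simp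
  rw [h5]
  exact mul_le_mul_of_nonneg_left h1 (by positivity)

theorem t_ah2 (hT : S_TOT2) (hA : S_ALG) : S_AH2 := by
  classical
  intro q δ β hδ hβ hδβ δ₀ hδ₀
  obtain ⟨ε, hε⟩ : ∃ ε : ℝ, ε = (1 - 2 * δ - β) / 4 := ⟨_, rfl⟩
  have hε0 : 0 < ε := by rw [hε]; linarith
  have hβ1 : β < 1 := by linarith
  obtain ⟨H0, hH0⟩ := hT q (δ + ε) (β + ε) (by linarith) (by linarith) (by linarith) δ₀ hδ₀
  obtain ⟨Cq, hCq, halg⟩ := alg_le q
  obtain ⟨C, hC, H1, hH1⟩ := hA q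
  obtain ⟨C1, hC1⟩ : ∃ C1 : ℝ, C1 = 3 ^ (q + 3) * (q + 2) := ⟨_, rfl⟩
  have hC10 : 0 ≤ C1 := by rw [hC1]; positivity
  obtain ⟨H2, hH2⟩ := eventually_atTop.1 (((((logpow3 (by linarith : β < β + ε) 2).and
    (logpow3 (by linarith : 1 + δ < 1 + (δ + ε)) 1)).and (logpow hβ1 4)).and
    (exp_beats ((2 * C1 + Cq) * C) β hβ)).and (log_ge (6 * log ((H0 : ℝ) + 2) + 6)))
  refine ⟨max (max H1 H2) 1, fun H hH => ?_⟩
  have hHa := hH1 H (le_of_max_le_left (le_of_max_le_left hH))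
  obtain ⟨⟨⟨⟨g1, g2⟩, g3⟩, g4⟩, g5⟩ := hH2 H (le_of_max_le_right (le_of_max_le_left hH))
  have hHone : 1 ≤ H := le_of_max_le_right hH
  intro G hG1 hG2 hG3 hG4 θ hθ1 hθ2 s hs
  obtain ⟨L, hL⟩ : ∃ L : ℝ, L = log H := ⟨_, rfl⟩
  have hlog0 : 0 ≤ log ((H0 : ℝ) + 2) := Real.log_nonneg (by
    have : (0 : ℝ) ≤ H0 := Nat.cast_nonneg _
    linarith)
  rw [← hL] at g1 g2 g3 g4 g5 hG3 hG4 hθ2 hHa ⊢
  have hL6 : 6 ≤ L := by linarith
  have hL0 : 0 < L := by linarith
  have hHR : (1 : ℝ) ≤ H := by exact_mod_cast hHone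
  have hHp : (0 : ℝ) < H := by linarith
  rw [Real.rpow_one] at g3
  rw [one_mul] at g2
  have hncard : (Alg (q + 2) H).ncard = s.card := by
    rw [← Set.ncard_coe_finset]
    congr 1
    ext x
    rw [Finset.mem_coe, hs]
  rw [hncard] at hHa
  have hexpL : Real.exp L = H := by rw [hL, Real.exp_log hHp]
  obtain ⟨E, hE⟩ : ∃ E : ℝ, E = Real.exp (-(2 * L ^ β)) := ⟨_, rfl⟩
  have hE0 : 0 < E := by rw [hE]; exact Real.exp_pos _
  have hterm : ∀ g ∈ Finset.Icc 1 H, ‖∑ p ∈ Om q (H / g), e (θ * G.eval p.2.2)‖ ≤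
      C1 * (H : ℝ) ^ (q + 3) * E * ((g : ℝ) ^ 2)⁻¹ := by
    intro g hg
    rw [Finset.mem_Icc] at hg
    obtain ⟨hg1, hg2⟩ := hg
    have hgR : (1 : ℝ) ≤ g := by exact_mod_cast hg1
    have hgp : (0 : ℝ) < g := by linarith
    have hh1 : 1 ≤ H / g := (Nat.one_le_div_iff hg1).2 hg2
    have hhR : (1 : ℝ) ≤ ((H / g : ℕ) : ℝ) := by exact_mod_cast hh1
    have hhle : ((H / g : ℕ) : ℝ) ≤ (H : ℝ) / g := Nat.cast_div_le
    have hhH : ((H / g : ℕ) : ℝ) ≤ H := by
      have : H / g ≤ H := Nat.div_le_self _ _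
      exact_mod_cast this
    have hcard : ((Om q (H / g)).card : ℝ) ≤ C1 * ((H : ℝ) / g) ^ (q + 3) := by
      refine (card_Om_le q (H / g) hh1).trans ?_
      rw [← hC1]
      gcongr
    have hpow : ((H : ℝ) / g) ^ (q + 3) ≤ (H : ℝ) ^ (q + 3) * ((g : ℝ) * (g : ℝ) ^ 2)⁻¹ := by
      rw [div_pow, div_eq_mul_inv]
      refine mul_le_mul_of_nonneg_left (inv_anti₀ (by positivity) ?_) (by positivity)
      rw [show (g : ℝ) ^ (q + 3) = (g : ℝ) ^ q * (g * (g : ℝ) ^ 2) by ring]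
      exact le_mul_of_one_le_left (by positivity) (one_le_pow₀ hgR)
    rcases le_or_gt g (Nat.sqrt H) with hgs | hgs
    · -- small `g`
      have h1 : Nat.sqrt H ≤ H / g := by
        rw [Nat.le_div_iff_mul_le (by omega)]
        calc Nat.sqrt H * g ≤ Nat.sqrt H * Nat.sqrt H := Nat.mul_le_mul_left _ hgs
          _ ≤ H := Nat.sqrt_le H
      have h2 : 1 / 3 * L ≤ log ((H / g : ℕ) : ℝ) := by
        rw [← Real.log_exp (1 / 3 * L)]
        apply Real.log_le_log (Real.exp_pos _)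
        have h3 : Real.exp (1 / 2 * L) < (Nat.sqrt H : ℕ) + 1 := by
          have h4 : Real.exp (1 / 2 * L) = Real.sqrt H := by
            rw [← hexpL, ← Real.exp_half]
            congr 1
            ring
          rw [h4]
          exact Real.real_sqrt_lt_nat_sqrt_succ
        have h4 : Real.exp (1 / 2 * L) = Real.exp (1 / 3 * L) * Real.exp (1 / 6 * L) := by
          rw [← Real.exp_add]
          congr 1
          ring
        have h5 : 2 ≤ Real.exp (1 / 6 * L) := by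
          have := Real.add_one_le_exp (1 / 6 * L)
          linarith
        have h6 : 1 ≤ Real.exp (1 / 3 * L) := Real.one_le_exp (by positivity)
        have h7 : Real.exp (1 / 3 * L) ≤ ((Nat.sqrt H : ℕ) : ℝ) := by nlinarith
        refine h7.trans ?_
        exact_mod_cast h1
      have h3 : H0 ≤ H / g := by
        have h4 : (H0 : ℝ) + 2 ≤ ((H / g : ℕ) : ℝ) := by
          rw [← Real.log_le_log_iff (by positivity) (by linarith)]
          linarith
        have h5 : (H0 : ℝ) ≤ ((H / g : ℕ) : ℝ) := by linarith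
        exact_mod_cast h5
      have h4 : ∀ t : ℝ, 0 ≤ t → (1 / 3 * L) ^ t ≤ (log ((H / g : ℕ) : ℝ)) ^ t := fun t ht =>
        Real.rpow_le_rpow (by positivity) h2 ht
      have hb : L ^ β ≤ (log ((H / g : ℕ) : ℝ)) ^ (β + ε) := by
        have h5 := h4 (β + ε) (by linarith)
        have h6 : 0 ≤ L ^ β := Real.rpow_nonneg hL0.le _
        linarith
      have h5 := hH0 (H / g) h3 G hG1 hG2
        (fun i hi => (hG3 i hi).trans (Real.exp_le_exp.2 hb))
        (le_trans (Real.exp_le_exp.2 (neg_le_neg hb)) hG4) θ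
        (le_trans (Real.rpow_le_rpow (by positivity) hhH hδ₀.le) hθ1)
        (hθ2.trans (Real.exp_le_exp.2 (g2.trans (h4 _ (by linarith)))))
      refine h5.trans ?_
      have h6 : Real.exp (-(log ((H / g : ℕ) : ℝ)) ^ (β + ε)) ≤ E := by
        rw [hE]
        apply Real.exp_le_exp.2
        have := h4 (β + ε) (by linarith)
        linarith
      calc ((Om q (H / g)).card : ℝ) * Real.exp (-(log ((H / g : ℕ) : ℝ)) ^ (β + ε))
          ≤ (C1 * ((H : ℝ) / g) ^ (q + 3)) * E := by gcongr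
        _ ≤ (C1 * ((H : ℝ) ^ (q + 3) * ((g : ℝ) * (g : ℝ) ^ 2)⁻¹)) * E := by gcongr
        _ ≤ (C1 * ((H : ℝ) ^ (q + 3) * ((g : ℝ) ^ 2)⁻¹)) * E := by
            gcongr
            exact le_mul_of_one_le_left (by positivity) hgR
        _ = _ := by ring
    · -- large `g`
      have h1 : Real.exp (1 / 2 * L) ≤ g := by
        have h4 : Real.exp (1 / 2 * L) = Real.sqrt H := by
          rw [← hexpL, ← Real.exp_half]
          congr 1
          ring
        have h2 : Real.exp (1 / 2 * L) < (Nat.sqrt H : ℕ) + 1 := by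
          rw [h4]
          exact Real.real_sqrt_lt_nat_sqrt_succ
        have h3 : ((Nat.sqrt H : ℕ) : ℝ) + 1 ≤ g := by exact_mod_cast hgs
        linarith
      have h2 : ‖∑ p ∈ Om q (H / g), e (θ * G.eval p.2.2)‖ ≤ ((Om q (H / g)).card : ℝ) := by
        refine (norm_sum_le _ _).trans (le_of_eq ?_)
        rw [Finset.sum_congr rfl fun p _ => norm_e _, Finset.sum_const, nsmul_eq_mul, mul_one]
      have h3 : (g : ℝ)⁻¹ ≤ E := by
        rw [hE, Real.exp_neg]
        refine inv_anti₀ (Real.exp_pos _) (le_trans (Real.exp_le_exp.2 ?_) h1)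
        linarith
      calc ‖∑ p ∈ Om q (H / g), e (θ * G.eval p.2.2)‖ ≤ ((Om q (H / g)).card : ℝ) := h2
        _ ≤ C1 * ((H : ℝ) / g) ^ (q + 3) := hcard
        _ ≤ C1 * ((H : ℝ) ^ (q + 3) * ((g : ℝ) * (g : ℝ) ^ 2)⁻¹) := by gcongr
        _ = C1 * (H : ℝ) ^ (q + 3) * (g : ℝ)⁻¹ * ((g : ℝ) ^ 2)⁻¹ := by
            rw [mul_inv]
            ring
        _ ≤ _ := by gcongr
  have h1 := halg H hHone (fun x => e (θ * G.eval x)) (fun x => (norm_e _).le) s hs
  have h2 : ∑ g ∈ Finset.Icc 1 H, ‖∑ p ∈ Om q (H / g), e (θ * G.eval p.2.2)‖ ≤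
      C1 * (H : ℝ) ^ (q + 3) * E * 2 := by
    refine (Finset.sum_le_sum hterm).trans ?_
    rw [← Finset.mul_sum]
    exact mul_le_mul_of_nonneg_left (sum_sq H hHone) (by positivity)
  have h3 : (H : ℝ) ^ (q + 2) * Real.sqrt H ≤ (H : ℝ) ^ (q + 3) * E := by
    have h4 : Real.sqrt H ≤ H * E := by
      have h5 : Real.sqrt H = Real.exp (L / 2) := by rw [← hexpL, Real.exp_half]
      rw [h5, ← hexpL, hE, ← Real.exp_add]
      apply Real.exp_le_exp.2
      linarith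
    calc (H : ℝ) ^ (q + 2) * Real.sqrt H ≤ (H : ℝ) ^ (q + 2) * (H * E) := by gcongr
      _ = _ := by ring
  have hE2 : E = Real.exp (-L ^ β) * Real.exp (-L ^ β) := by
    rw [hE, ← Real.exp_add]
    congr 1
    ring
  calc ‖∑ x ∈ s, e (θ * G.eval x)‖ ≤ C1 * (H : ℝ) ^ (q + 3) * E * 2 +
        Cq * ((H : ℝ) ^ (q + 2) * Real.sqrt H) := h1.trans (by gcongr)
    _ ≤ C1 * (H : ℝ) ^ (q + 3) * E * 2 + Cq * ((H : ℝ) ^ (q + 3) * E) := by gcongr
    _ = (2 * C1 + Cq) * E * (H : ℝ) ^ (q + 3) := by ring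
    _ ≤ (2 * C1 + Cq) * E * (C * L * s.card) := by gcongr
    _ = ((2 * C1 + Cq) * C * L) * (s.card * E) := by ring
    _ ≤ Real.exp (L ^ β) * (s.card * E) := by gcongr
    _ = (s.card : ℝ) * (Real.exp (L ^ β) * Real.exp (-L ^ β)) * Real.exp (-L ^ β) := by
        rw [hE2]
        ring
    _ = _ := by
        rw [← Real.exp_add, add_neg_cancel, Real.exp_zero, mul_one]

end Pool.Agent.Run7.h184.AN
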